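import Pool.Agent.H93.EG.Targets

/-!
# Invariant functions of polygonal billiards: the integral of the Jacobian of a mode is zero (AJ)
-/

namespace Pool.Agent.H36.EG

open MeasureTheory Set Metric Filter Topology Pool.Agent.H93.EG
open Pool.Agent.H93.BL hiding T_B1 T_B2 T_B3 T_SB T_SC
open Pool.Agent.H93.EN

theorem aj (h1 : T_AG2) : T_AJ := by
  intro ι _ P δ G N hδ hSm k
  obtain ⟨R, hR0, hR⟩ := P.isBounded.subset_ball_lt 0 (0 : ℂ)
  let b : ContDiffBump (0 : ℂ) := ⟨R, R + 1, hR0, by linarith⟩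
  have hη1 : ∀ x ∈ P.Ω, b x = 1 := fun x hx =>
    b.one_of_mem_closedBall (ball_subset_closedBall (hR hx))
  have hη2 : ∀ x ∈ P.Ω, fderiv ℝ (b : ℂ → ℝ) x = 0 := by
    intro x hx
    have h : (b : ℂ → ℝ) =ᶠ[𝓝 x] fun _ => (1 : ℝ) := by
      filter_upwards [P.isOpen.mem_nhds hx] with y hy
      exact hη1 y hy
    rw [h.fderiv_eq]
    simp
  have h2 := h1 ι P δ G N hδ hSm b (b.contDiff (n := 2)) b.hasCompactSupport k
  have hΩ : MeasurableSet P.Ω := P.isOpen.measurableSet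
  unfold GId at h2
  have h3 : ∫ x in P.Ω, b x * ((starRingEnd ℂ) (ux N k x) * uy N k x).im
      = ∫ x in P.Ω, ((starRingEnd ℂ) (ux N k x) * uy N k x).im :=
    setIntegral_congr_fun hΩ fun x hx => by
      simp only [hη1 x hx, one_mul]
  have h4 : ∫ x in P.Ω, ((starRingEnd ℂ) (um G k x) *
      ((fderiv ℝ (b : ℂ → ℝ) x 1 : ℂ) * uy N k x -
        (fderiv ℝ (b : ℂ → ℝ) x Complex.I : ℂ) * ux N k x)).im = ∫ x in P.Ω, (0 : ℝ) :=
    setIntegral_congr_fun hΩ fun x hx => by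
      simp [hη2 x hx]
  rw [h3, h4] at h2
  rw [h2]
  simp

end Pool.Agent.H36.EG
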